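import Pool.Agent.Helper92.Riesz.Ker2Core
import Pool.Agent.Helper72.Riesz.ExpPD
import Pool.Agent.Helper69.Riesz.StereoC

/-!
# Averages of exponentials and the residual kernel (module KER-2), final form
-/

set_option autoImplicit false
open MeasureTheory Set Filter Topology
open scoped ENNReal NNReal

namespace Helper23.Riesz

theorem exp_avg_le {d : ℕ} (hd : 1 ≤ d) : ∃ C : ℝ, 0 < C ∧ ∀ v : ℝ, 0 < v →
    avg2 (fun x y : S d => Real.exp (-v * dist x y)) ≤ C * v ^ (-(d:ℝ)) := by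
  have := isProbabilityMeasure_sig d
  obtain ⟨C, hC, hb⟩ := sig_closedBall_le hd
  have hd' : (0:ℝ) < d := by exact_mod_cast hd
  have hG := Real.Gamma_pos_of_pos hd'
  exact ⟨C * d * Real.Gamma d, by positivity, exp_avg_le' hd hC hb⟩

/-- the residual kernel `K (1 - h_a)` has almost nonnegative energy -/
theorem residual {d : ℕ} (hd : 1 ≤ d) {s : ℝ} (hs : 0 < s) (hsd : s < d) (θ C : ℝ) (hθ : 0 < θ)
    (hθs : θ ≤ s) (hC : 0 < C) : ∃ C' : ℝ, 0 < C' ∧ ∀ (a : ℝ) (ha : 0 < a) (h w : ℝ → ℝ),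
      Measurable w → (∀ v, 0 ≤ w v) →
      (∀ r : ℝ, 0 < r → IntegrableOn (fun v => w v * Real.exp (-v * r)) (Ioi 0) ∧
        r ^ (-s) * (1 - h r) = ∫ v in Ioi 0, w v * Real.exp (-v * r)) →
      (∀ U : ℝ, 2 * a ≤ U → IntegrableOn w (Ioc 0 U) ∧
        ∫ v in Ioc 0 U, w v ≤ C * a ^ θ * U ^ (s - θ)) →
      (∀ v : ℝ, 2 * a ≤ v → w v ≤ C * a ^ θ * v ^ (s - 1 - θ)) →
      ∀ U : ℝ, 2 * a ≤ U → ∀ X : Finset (S d),
        -(C' * ((X.card : ℝ) * a ^ θ * U ^ (s - θ) + (X.card : ℝ) ^ 2 * a ^ θ * U ^ (s - θ - d))) ≤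
          ∑ x ∈ X, ∑ y ∈ X, K s x y * (1 - h (dist x y)) -
            (X.card : ℝ) ^ 2 * avg2 (fun x y : S d => K s x y * (1 - h (dist x y))) := by
  have := isProbabilityMeasure_sig d
  obtain ⟨Cb, hCb, hb⟩ := sig_closedBall_le hd
  exact residual' hd hCb hb (fun v hv X => exp_pd v hv X) hs hsd θ C hθ hθs hC

theorem avg_K_exp {d : ℕ} (hd : 1 ≤ d) {s : ℝ} (hs : 0 < s) (hsd : s < d) :
    ∃ C : ℝ, 0 < C ∧ ∀ a : ℝ, 0 < a → ∀ (x : S d) (δ : ℝ), 0 ≤ δ →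
      ∫ y in {y | δ ≤ dist x y}, K s x y * Real.exp (-a * dist x y) ∂(sig d) ≤
        C * a ^ (s - d) * Real.exp (-a * δ / 2) := by
  have := isProbabilityMeasure_sig d
  obtain ⟨C, hC, hb⟩ := sig_closedBall_le hd
  have hd' : (0:ℝ) < d := by exact_mod_cast hd
  have hG : 0 < Real.Gamma (d - s) := Real.Gamma_pos_of_pos (by linarith)
  exact ⟨C * d * Real.Gamma (d - s) * 2 ^ (d - s), by positivity,
    fun a ha x δ _ => avg_K_exp' hd hC hb hs hsd a ha x δ⟩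

end Helper23.Riesz
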