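import Pool.Agent.Helper23.Riesz.Defs

/-!
# Domination of zonal averages by one-dimensional integrals (module KER-2)
-/

set_option autoImplicit false
open MeasureTheory Set Filter Topology
open scoped ENNReal NNReal

namespace Helper23.Riesz

/-- the growth of balls -/
def BallLe (d : ℕ) (C : ℝ) : Prop :=
  ∀ (x : S d) (r : ℝ), 0 ≤ r → (sig d).real (Metric.closedBall x r) ≤ C * r ^ d

/-- the comparison measure on the half line -/
noncomputable def cmp (d : ℕ) (C : ℝ) : Measure ℝ :=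
  (volume.restrict (Ioi (0:ℝ))).withDensity (fun u => ENNReal.ofReal (C * (d * u ^ (d-1))))

lemma measurable_dens (d : ℕ) (C : ℝ) :
    Measurable (fun u : ℝ => ENNReal.ofReal (C * (d * u ^ (d-1)))) := by
  fun_prop

lemma cmp_Ioo {d : ℕ} (hd : 1 ≤ d) {C : ℝ} (hC : 0 < C) {R : ℝ} (hR : 0 ≤ R) :
    cmp d C (Ioo 0 R) = ENNReal.ofReal (C * R ^ d) := by
  unfold cmp
  rw [withDensity_apply _ measurableSet_Ioo, Measure.restrict_restrict measurableSet_Ioo]
  have h1 : Ioo (0:ℝ) R ∩ Ioi 0 = Ioo 0 R := by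
    ext u; simp only [mem_inter_iff, mem_Ioo, mem_Ioi]; tauto
  rw [h1]
  have hint : IntegrableOn (fun u : ℝ => C * (d * u ^ (d-1))) (Ioo 0 R) := by
    have hc : Continuous (fun u : ℝ => C * (d * u ^ (d-1))) := by fun_prop
    exact (hc.integrableOn_Icc (a := 0) (b := R)).mono_set Ioo_subset_Icc_self
  rw [← ofReal_integral_eq_lintegral_ofReal hint]
  · congr 1
    rw [← integral_Ioc_eq_integral_Ioo, ← intervalIntegral.integral_of_le hR,
      intervalIntegral.integral_const_mul, intervalIntegral.integral_const_mul, integral_pow]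
    have hd' : d - 1 + 1 = d := by omega
    have hd0 : (d:ℝ) ≠ 0 := by positivity
    have h2 : ((d - 1 : ℕ) : ℝ) + 1 = d := by exact_mod_cast hd'
    rw [hd', h2, zero_pow (by omega)]
    field_simp
    ring
  · refine (ae_restrict_iff' measurableSet_Ioo).2 (ae_of_all _ fun u hu => ?_)
    have := hu.1.le
    simp only [Pi.zero_apply]
    positivity

lemma sig_self {d : ℕ} (hd : 1 ≤ d) [IsFiniteMeasure (sig d)] {C : ℝ} (hb : BallLe d C) (x : S d) :
    sig d {x} = 0 := by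
  have h := hb x 0 le_rfl
  rw [zero_pow (by omega), mul_zero, Metric.closedBall_zero] at h
  have h2 : (sig d).real {x} = 0 := le_antisymm h measureReal_nonneg
  rwa [measureReal_eq_zero_iff] at h2

lemma super_le {d : ℕ} (hd : 1 ≤ d) [IsFiniteMeasure (sig d)] {C : ℝ} (hC : 0 < C)
    (hb : BallLe d C) (φ : ℝ → ℝ) (hφ : AntitoneOn φ (Ioi 0)) (x : S d) (t : ℝ) :
    sig d {y | t < φ (dist x y)} ≤ cmp d C {u | t < φ u} := by
  by_cases hD : {y : S d | t < φ (dist x y)} ⊆ {x}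
  · exact (measure_mono hD).trans (by rw [sig_self hd hb]; exact zero_le)
  obtain ⟨y₀, hy₀, hyx⟩ := not_subset.1 hD
  set T : Set ℝ := {r | ∃ y : S d, r = dist x y ∧ 0 < r ∧ t < φ r} with hT
  have hTne : T.Nonempty :=
    ⟨dist x y₀, y₀, rfl, dist_pos.2 (fun h => hyx (by simp [h])), hy₀⟩
  have hTb : BddAbove T := ⟨2, by rintro r ⟨y, rfl, -, -⟩; exact dist_le_two x y⟩
  set R := sSup T with hR
  have hR0 : 0 ≤ R := by
    obtain ⟨r, hr⟩ := hTne
    exact (hr.choose_spec.2.1).le.trans (le_csSup hTb hr)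
  have h1 : {y : S d | t < φ (dist x y)} ⊆ Metric.closedBall x R := by
    intro y hy
    rw [Metric.mem_closedBall, dist_comm]
    by_cases hxy : dist x y = 0
    · rw [hxy]; exact hR0
    · exact le_csSup hTb ⟨y, rfl, lt_of_le_of_ne dist_nonneg (Ne.symm hxy), hy⟩
  have h2 : Ioo 0 R ⊆ {u | t < φ u} := by
    intro u hu
    obtain ⟨r, ⟨y, hy, hr0, hr⟩, hur⟩ := exists_lt_of_lt_csSup hTne hu.2
    exact lt_of_lt_of_le hr (hφ (mem_Ioi.2 hu.1) (mem_Ioi.2 hr0) hur.le)
  calc sig d {y | t < φ (dist x y)} ≤ sig d (Metric.closedBall x R) := measure_mono h1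
    _ = ENNReal.ofReal ((sig d).real (Metric.closedBall x R)) := by
        rw [ofReal_measureReal]
    _ ≤ ENNReal.ofReal (C * R ^ d) := ENNReal.ofReal_le_ofReal (hb x R hR0)
    _ = cmp d C (Ioo 0 R) := (cmp_Ioo hd hC hR0).symm
    _ ≤ _ := measure_mono h2

theorem dom {d : ℕ} (hd : 1 ≤ d) [IsFiniteMeasure (sig d)] {C : ℝ} (hC : 0 < C)
    (hb : BallLe d C) (φ : ℝ → ℝ) (hφm : Measurable φ) (hφ : AntitoneOn φ (Ioi 0))
    (hφ0 : ∀ u, 0 ≤ u → 0 ≤ φ u) (x : S d) :
    ∫⁻ y, ENNReal.ofReal (φ (dist x y)) ∂(sig d) ≤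
      ∫⁻ u in Ioi 0, ENNReal.ofReal (φ u * (C * (d * u ^ (d-1)))) := by
  have hν : ∫⁻ u in Ioi 0, ENNReal.ofReal (φ u * (C * (d * u ^ (d-1)))) =
      ∫⁻ u, ENNReal.ofReal (φ u) ∂(cmp d C) := by
    unfold cmp
    rw [lintegral_withDensity_eq_lintegral_mul _ (measurable_dens d C) hφm.ennreal_ofReal]
    refine setLIntegral_congr_fun measurableSet_Ioi fun u hu => ?_
    have hu' : (0:ℝ) ≤ u := le_of_lt hu
    simp only [Pi.mul_apply]
    rw [← ENNReal.ofReal_mul (by positivity), mul_comm]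
  rw [hν]
  have e1 : ∫⁻ y, ENNReal.ofReal (φ (dist x y)) ∂(sig d) =
      ∫⁻ t in Ioi 0, sig d {y | t < φ (dist x y)} :=
    lintegral_eq_lintegral_meas_lt (sig d) (f := fun y => φ (dist x y))
      (ae_of_all _ fun y => hφ0 _ dist_nonneg)
      ((hφm.comp (measurable_const.dist measurable_id)).aemeasurable)
  have e2 : ∫⁻ u, ENNReal.ofReal (φ u) ∂(cmp d C) = ∫⁻ t in Ioi 0, cmp d C {u | t < φ u} := by
    refine lintegral_eq_lintegral_meas_lt (cmp d C) (f := φ) ?_ hφm.aemeasurable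
    unfold cmp
    refine (withDensity_absolutelyContinuous _ _).ae_le ?_
    exact (ae_restrict_iff' measurableSet_Ioi).2 (ae_of_all _ fun u hu => hφ0 u (le_of_lt hu))
  rw [e1, e2]
  exact lintegral_mono fun t => super_le hd hC hb φ hφ x t

end Helper23.Riesz
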