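import Pool.Agent.Helper92.Riesz.Dom

/-!
# Averages of exponentials and the residual kernel (module KER-2, with the results of the other
modules as hypotheses)
-/

set_option autoImplicit false
open MeasureTheory Set Filter Topology
open scoped ENNReal NNReal

namespace Helper23.Riesz

lemma lint_gamma_core {p b : ℝ} (hp : 0 < p) (hb : 0 < b) {M : ℝ} (hM : 0 ≤ M) :
    ∫⁻ u in Ioi 0, ENNReal.ofReal (M * (u ^ (p - 1) * Real.exp (-(b * u)))) =
      ENNReal.ofReal (M * ((1 / b) ^ p * Real.Gamma p)) := by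
  have h := Real.integral_rpow_mul_exp_neg_mul_Ioi hp hb
  have hpos : 0 < (1 / b) ^ p * Real.Gamma p := by
    have := Real.Gamma_pos_of_pos hp
    positivity
  have hint : IntegrableOn (fun u : ℝ => u ^ (p - 1) * Real.exp (-(b * u))) (Ioi 0) := by
    by_contra hn
    rw [integral_undef hn] at h
    exact hpos.ne h
  rw [← ofReal_integral_eq_lintegral_ofReal (hint.const_mul M), integral_const_mul, h]
  refine (ae_restrict_iff' measurableSet_Ioi).2 (ae_of_all _ fun u hu => ?_)
  have : (0:ℝ) < u := hu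
  simp only [Pi.zero_apply]
  positivity

lemma exp_point_le {d : ℕ} (hd : 1 ≤ d) [IsFiniteMeasure (sig d)] {C : ℝ} (hC : 0 < C)
    (hb : BallLe d C) {v : ℝ} (hv : 0 < v) (x : S d) :
    ∫⁻ y, ENNReal.ofReal (Real.exp (-v * dist x y)) ∂(sig d) ≤
      ENNReal.ofReal (C * d * Real.Gamma d * v ^ (-(d:ℝ))) := by
  have h := dom hd hC hb (fun u => Real.exp (-v * u)) (by fun_prop)
    (fun a _ b _ hab => Real.exp_le_exp.2 (by nlinarith)) (fun u _ => (Real.exp_pos _).le) x
  refine h.trans (le_of_eq ?_)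
  have hd' : (0:ℝ) < d := by exact_mod_cast hd
  have e : ∫⁻ u in Ioi (0:ℝ), ENNReal.ofReal (Real.exp (-v * u) * (C * (d * u ^ (d-1)))) =
      ∫⁻ u in Ioi (0:ℝ), ENNReal.ofReal (C * d * (u ^ ((d:ℝ) - 1) * Real.exp (-(v * u)))) := by
    refine setLIntegral_congr_fun measurableSet_Ioi fun u hu => ?_
    have hu' : (0:ℝ) < u := hu
    have : u ^ ((d:ℝ) - 1) = u ^ (d - 1) := by
      rw [← Real.rpow_natCast]
      congr 1
      push_cast [hd]
      ring
    rw [this]
    congr 1
    rw [neg_mul]; ring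
  rw [e, lint_gamma_core hd' hv (by positivity)]
  congr 1
  rw [one_div, Real.inv_rpow hv.le, ← Real.rpow_neg hv.le]
  ring

lemma K_exp_point_le {d : ℕ} (hd : 1 ≤ d) [IsFiniteMeasure (sig d)] {C : ℝ} (hC : 0 < C)
    (hb : BallLe d C) {s : ℝ} (hs : 0 < s) (hsd : s < d) {v : ℝ} (hv : 0 < v) (x : S d) :
    ∫⁻ y, ENNReal.ofReal (K s x y * Real.exp (-v * dist x y)) ∂(sig d) ≤
      ENNReal.ofReal (C * d * Real.Gamma (d - s) * v ^ (s - d)) := by
  have h := dom hd hC hb (fun u => u ^ (-s) * Real.exp (-v * u)) (by fun_prop)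
    (fun a ha b hb' hab => by
      have ha' : (0:ℝ) < a := ha
      have hb'' : (0:ℝ) < b := hb'
      exact mul_le_mul (Real.rpow_le_rpow_of_nonpos ha' hab (by linarith))
        (Real.exp_le_exp.2 (by nlinarith)) (Real.exp_pos _).le (by positivity))
    (fun u hu => by positivity) x
  refine h.trans (le_of_eq ?_)
  have hd' : (0:ℝ) < d := by exact_mod_cast hd
  have e : ∫⁻ u in Ioi (0:ℝ), ENNReal.ofReal (u ^ (-s) * Real.exp (-v * u) *
        (C * (d * u ^ (d-1)))) =
      ∫⁻ u in Ioi (0:ℝ), ENNReal.ofReal (C * d * (u ^ ((d:ℝ) - s - 1) * Real.exp (-(v * u)))) := by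
    refine setLIntegral_congr_fun measurableSet_Ioi fun u hu => ?_
    have hu' : (0:ℝ) < u := hu
    have : u ^ ((d:ℝ) - s - 1) = u ^ (-s) * u ^ (d - 1) := by
      rw [← Real.rpow_natCast, ← Real.rpow_add hu']
      congr 1
      push_cast [hd]
      ring
    rw [this]
    congr 1
    rw [neg_mul]; ring
  rw [e, lint_gamma_core (by linarith) hv (by positivity)]
  congr 1
  rw [one_div, Real.inv_rpow hv.le, ← Real.rpow_neg hv.le]
  rw [neg_sub]
  ring

lemma ofReal_avg2_le {d : ℕ} (F : S d → S d → ℝ) (hF : ∀ x y, 0 ≤ F x y)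
    (G : S d → S d → ℝ≥0∞) (hG : ∀ x y, ENNReal.ofReal (F x y) ≤ G x y) :
    ENNReal.ofReal (avg2 F) ≤ ∫⁻ x, ∫⁻ y, G x y ∂(sig d) ∂(sig d) := by
  unfold avg2
  refine (ENNReal.ofReal_le_ofReal (le_abs_self _)).trans ?_
  rw [← Real.norm_eq_abs, ofReal_norm]
  refine (enorm_integral_le_lintegral_enorm _).trans (lintegral_mono fun x => ?_)
  refine (enorm_integral_le_lintegral_enorm _).trans (lintegral_mono fun y => ?_)
  rw [Real.enorm_eq_ofReal (hF x y)]
  exact hG x y

lemma avg2_nonneg {d : ℕ} (F : S d → S d → ℝ) (hF : ∀ x y, 0 ≤ F x y) : 0 ≤ avg2 F :=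
  integral_nonneg fun x => integral_nonneg fun y => hF x y

/-- for the exponentials the double average is the double lower integral -/
lemma avg2_exp_eq {d : ℕ} [IsProbabilityMeasure (sig d)] {v : ℝ} (hv : 0 ≤ v) :
    ENNReal.ofReal (avg2 (fun x y : S d => Real.exp (-v * dist x y))) =
      ∫⁻ x, ∫⁻ y : S d, ENNReal.ofReal (Real.exp (-v * dist x y)) ∂(sig d) ∂(sig d) := by
  have hm : Measurable (fun p : S d × S d => Real.exp (-v * dist p.1 p.2)) := by
    have h1 : Measurable (fun p : S d × S d => dist p.1 p.2) := measurable_dist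
    exact Real.measurable_exp.comp (h1.const_mul _)
  have hbd : ∀ p : S d × S d, ‖Real.exp (-v * dist p.1 p.2)‖ ≤ 1 := fun p => by
    rw [Real.norm_eq_abs, abs_of_pos (Real.exp_pos _)]
    refine Real.exp_le_one_iff.2 ?_
    have : 0 ≤ dist p.1 p.2 := dist_nonneg
    nlinarith
  have hi : Integrable (fun p : S d × S d => Real.exp (-v * dist p.1 p.2))
      ((sig d).prod (sig d)) :=
    Integrable.of_bound hm.aestronglyMeasurable 1 (ae_of_all _ hbd)
  unfold avg2
  rw [ofReal_integral_eq_lintegral_ofReal hi.integral_prod_left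
    (ae_of_all _ fun x => integral_nonneg fun y => (Real.exp_pos _).le)]
  refine lintegral_congr fun x => ?_
  rw [ofReal_integral_eq_lintegral_ofReal _ (ae_of_all _ fun y => (Real.exp_pos _).le)]
  refine Integrable.of_bound (hm.comp measurable_prodMk_left).aestronglyMeasurable 1
    (ae_of_all _ fun y => hbd (x, y))

theorem exp_avg_le' {d : ℕ} (hd : 1 ≤ d) [IsProbabilityMeasure (sig d)] {C : ℝ} (hC : 0 < C)
    (hb : BallLe d C) (v : ℝ) (hv : 0 < v) :
    avg2 (fun x y : S d => Real.exp (-v * dist x y)) ≤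
      C * d * Real.Gamma d * v ^ (-(d:ℝ)) := by
  have hd' : (0:ℝ) < d := by exact_mod_cast hd
  have hG := Real.Gamma_pos_of_pos hd'
  rw [← ENNReal.ofReal_le_ofReal_iff (by positivity), avg2_exp_eq hv.le]
  calc ∫⁻ x, ∫⁻ y : S d, ENNReal.ofReal (Real.exp (-v * dist x y)) ∂(sig d) ∂(sig d)
      ≤ ∫⁻ _x : S d, ENNReal.ofReal (C * d * Real.Gamma d * v ^ (-(d:ℝ))) ∂(sig d) :=
        lintegral_mono fun x => exp_point_le hd hC hb hv x
    _ = _ := by rw [lintegral_const, measure_univ, mul_one]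

theorem avg_K_exp' {d : ℕ} (hd : 1 ≤ d) [IsProbabilityMeasure (sig d)] {C : ℝ} (hC : 0 < C)
    (hb : BallLe d C) {s : ℝ} (hs : 0 < s) (hsd : s < d) (a : ℝ) (ha : 0 < a) (x : S d)
    (δ : ℝ) :
    ∫ y in {y | δ ≤ dist x y}, K s x y * Real.exp (-a * dist x y) ∂(sig d) ≤
      (C * d * Real.Gamma (d - s) * 2 ^ (d - s)) * a ^ (s - d) * Real.exp (-a * δ / 2) := by
  have hd' : (0:ℝ) < d := by exact_mod_cast hd
  have hG : 0 < Real.Gamma (d - s) := Real.Gamma_pos_of_pos (by linarith)
  rw [← ENNReal.ofReal_le_ofReal_iff (by positivity)]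
  have hmeas : MeasurableSet {y : S d | δ ≤ dist x y} :=
    measurableSet_le measurable_const (measurable_const.dist measurable_id)
  have h1 : ENNReal.ofReal (∫ y in {y | δ ≤ dist x y}, K s x y * Real.exp (-a * dist x y) ∂(sig d))
      ≤ ∫⁻ y in {y | δ ≤ dist x y},
        ENNReal.ofReal (K s x y * Real.exp (-a * dist x y)) ∂(sig d) := by
    refine (ENNReal.ofReal_le_ofReal (le_abs_self _)).trans ?_
    rw [← Real.norm_eq_abs, ofReal_norm]
    refine (enorm_integral_le_lintegral_enorm _).trans (lintegral_mono fun y => ?_)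
    rw [Real.enorm_eq_ofReal (mul_nonneg (K_nonneg _ _ _) (Real.exp_pos _).le)]
  refine h1.trans ?_
  calc ∫⁻ y in {y | δ ≤ dist x y},
        ENNReal.ofReal (K s x y * Real.exp (-a * dist x y)) ∂(sig d)
      ≤ ∫⁻ y in {y | δ ≤ dist x y}, ENNReal.ofReal (Real.exp (-a * δ / 2)) *
          ENNReal.ofReal (K s x y * Real.exp (-(a/2) * dist x y)) ∂(sig d) := by
        refine setLIntegral_mono' hmeas fun y hy => ?_
        rw [← ENNReal.ofReal_mul (Real.exp_pos _).le]
        refine ENNReal.ofReal_le_ofReal ?_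
        have h3 : Real.exp (-a * dist x y) ≤
            Real.exp (-a * δ / 2) * Real.exp (-(a/2) * dist x y) := by
          rw [← Real.exp_add]
          refine Real.exp_le_exp.2 ?_
          have : δ ≤ dist x y := hy
          nlinarith
        calc K s x y * Real.exp (-a * dist x y)
            ≤ K s x y * (Real.exp (-a * δ / 2) * Real.exp (-(a/2) * dist x y)) :=
              mul_le_mul_of_nonneg_left h3 (K_nonneg _ _ _)
          _ = _ := by ring
    _ ≤ ∫⁻ y, ENNReal.ofReal (Real.exp (-a * δ / 2)) *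
          ENNReal.ofReal (K s x y * Real.exp (-(a/2) * dist x y)) ∂(sig d) :=
        setLIntegral_le_lintegral _ _
    _ = ENNReal.ofReal (Real.exp (-a * δ / 2)) *
          ∫⁻ y, ENNReal.ofReal (K s x y * Real.exp (-(a/2) * dist x y)) ∂(sig d) :=
        lintegral_const_mul' _ _ ENNReal.ofReal_ne_top
    _ ≤ ENNReal.ofReal (Real.exp (-a * δ / 2)) *
          ENNReal.ofReal (C * d * Real.Gamma (d - s) * (a/2) ^ (s - d)) := by
        gcongr
        exact K_exp_point_le hd hC hb hs hsd (by positivity) x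
    _ = _ := by
        rw [← ENNReal.ofReal_mul (Real.exp_pos _).le]
        congr 1
        have : (a/2) ^ (s - (d:ℝ)) = a ^ (s - d) * 2 ^ ((d:ℝ) - s) := by
          rw [Real.div_rpow ha.le (by norm_num), div_eq_mul_inv, ← Real.rpow_neg (by norm_num),
            neg_sub]
        rw [this]
        ring

/-! ### The residual kernel -/

/-- truncated mixtures of exponentials as lower integrals -/
noncomputable def mix (w : ℝ → ℝ) (A : Set ℝ) (r : ℝ) : ℝ≥0∞ :=
  ∫⁻ v in A, ENNReal.ofReal (w v * Real.exp (-v * r))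

lemma lint_mix {d : ℕ} [IsProbabilityMeasure (sig d)] {w : ℝ → ℝ} (hw : Measurable w)
    (hw0 : ∀ v, 0 ≤ w v) {A : Set ℝ} (hA : MeasurableSet A) (hA0 : A ⊆ Ioi 0) :
    ∫⁻ x, ∫⁻ y : S d, mix w A (dist x y) ∂(sig d) ∂(sig d) =
      ∫⁻ v in A, ENNReal.ofReal (w v) *
        ENNReal.ofReal (avg2 (fun x y : S d => Real.exp (-v * dist x y))) := by
  unfold mix
  have hm : Measurable (fun p : (S d × S d) × ℝ =>
      ENNReal.ofReal (w p.2 * Real.exp (-p.2 * dist p.1.1 p.1.2))) := by
    have h1 : Measurable (fun p : (S d × S d) × ℝ => dist p.1.1 p.1.2) :=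
      measurable_dist.comp measurable_fst
    exact ((hw.comp measurable_snd).mul
      (Real.measurable_exp.comp ((measurable_snd.neg).mul h1))).ennreal_ofReal
  have e1 : ∫⁻ x, ∫⁻ y : S d, ∫⁻ v in A,
        ENNReal.ofReal (w v * Real.exp (-v * dist x y)) ∂volume ∂(sig d) ∂(sig d) =
      ∫⁻ p : S d × S d, ∫⁻ v in A, ENNReal.ofReal (w v * Real.exp (-v * dist p.1 p.2)) ∂volume
        ∂((sig d).prod (sig d)) := by
    rw [lintegral_prod]
    exact hm.lintegral_prod_right'.aemeasurable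
  rw [e1, lintegral_lintegral_swap hm.aemeasurable]
  refine setLIntegral_congr_fun hA fun v hv => ?_
  have hv0 : 0 < v := hA0 hv
  rw [avg2_exp_eq hv0.le]
  have e2 : ∀ p : S d × S d, ENNReal.ofReal (w v * Real.exp (-v * dist p.1 p.2)) =
      ENNReal.ofReal (w v) * ENNReal.ofReal (Real.exp (-v * dist p.1 p.2)) :=
    fun p => ENNReal.ofReal_mul (hw0 v)
  simp_rw [e2]
  rw [lintegral_const_mul' _ _ ENNReal.ofReal_ne_top, lintegral_prod]
  have h1 : Measurable (fun p : S d × S d => dist p.1 p.2) := measurable_dist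
  exact ((Real.measurable_exp.comp (h1.const_mul _)).ennreal_ofReal).aemeasurable

theorem residual' {d : ℕ} (hd : 1 ≤ d) [IsProbabilityMeasure (sig d)] {Cb : ℝ} (hCb : 0 < Cb)
    (hb : BallLe d Cb)
    (hpd : ∀ (v : ℝ) (_ : 0 ≤ v) (X : Finset (S d)),
      (X.card : ℝ) ^ 2 * avg2 (fun x y : S d => Real.exp (-v * dist x y)) ≤
        ∑ x ∈ X, ∑ y ∈ X, Real.exp (-v * dist x y))
    {s : ℝ} (hs : 0 < s) (hsd : s < d) (θ C : ℝ) (hθ : 0 < θ)
    (_hθs : θ ≤ s) (hC : 0 < C) : ∃ C' : ℝ, 0 < C' ∧ ∀ (a : ℝ) (ha : 0 < a) (h w : ℝ → ℝ),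
      Measurable w → (∀ v, 0 ≤ w v) →
      (∀ r : ℝ, 0 < r → IntegrableOn (fun v => w v * Real.exp (-v * r)) (Ioi 0) ∧
        r ^ (-s) * (1 - h r) = ∫ v in Ioi 0, w v * Real.exp (-v * r)) →
      (∀ U : ℝ, 2 * a ≤ U → IntegrableOn w (Ioc 0 U) ∧
        ∫ v in Ioc 0 U, w v ≤ C * a ^ θ * U ^ (s - θ)) →
      (∀ v : ℝ, 2 * a ≤ v → w v ≤ C * a ^ θ * v ^ (s - 1 - θ)) →
      ∀ U : ℝ, 2 * a ≤ U → ∀ X : Finset (S d),
        -(C' * ((X.card : ℝ) * a ^ θ * U ^ (s - θ) + (X.card : ℝ) ^ 2 * a ^ θ * U ^ (s - θ - d))) ≤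
          ∑ x ∈ X, ∑ y ∈ X, K s x y * (1 - h (dist x y)) -
            (X.card : ℝ) ^ 2 * avg2 (fun x y : S d => K s x y * (1 - h (dist x y))) := by
  classical
  have hd' : (0:ℝ) < d := by exact_mod_cast hd
  have hG := Real.Gamma_pos_of_pos hd'
  set Ce : ℝ := Cb * d * Real.Gamma d with hCe
  have hCe0 : 0 < Ce := by positivity
  have hq : 0 < (d:ℝ) + θ - s := by linarith
  refine ⟨C + C * Ce / (d + θ - s), by positivity, ?_⟩
  intro a ha h w hwm hw0 hrep hU1 hU2 U hU X
  have hU0 : 0 < U := by linarith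
  have haθ : 0 < a ^ θ := Real.rpow_pos_of_pos ha θ
  set I : ℝ := ∫ v in Ioc 0 U, w v with hI
  have hI0 : 0 ≤ I := setIntegral_nonneg measurableSet_Ioc fun v _ => hw0 v
  have hIle : I ≤ C * a ^ θ * U ^ (s - θ) := (hU1 U hU).2
  have hwint := (hU1 U hU).1
  -- the bounded part
  set g₁ : ℝ → ℝ := fun r => ∫ v in Ioc 0 U, w v * Real.exp (-v * r) with hg₁
  have hg₁i : ∀ r, 0 ≤ r → IntegrableOn (fun v => w v * Real.exp (-v * r)) (Ioc 0 U) := by
    intro r hr
    refine Integrable.mono' hwint ?_ ?_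
    · exact (hwm.mul (by fun_prop)).aestronglyMeasurable
    · refine (ae_restrict_iff' measurableSet_Ioc).2 (ae_of_all _ fun v hv => ?_)
      have hv0 : 0 < v := hv.1
      rw [Real.norm_eq_abs, abs_of_nonneg (mul_nonneg (hw0 v) (Real.exp_pos _).le)]
      refine mul_le_of_le_one_right (hw0 v) (Real.exp_le_one_iff.2 ?_)
      nlinarith
  have hg₁0 : ∀ r, 0 ≤ g₁ r := fun r =>
    setIntegral_nonneg measurableSet_Ioc fun v _ => mul_nonneg (hw0 v) (Real.exp_pos _).le
  have hg₁z : g₁ 0 = I := by simp [hg₁, hI]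
  have hg₁mix : ∀ r, 0 ≤ r → ENNReal.ofReal (g₁ r) = mix w (Ioc 0 U) r := by
    intro r hr
    exact ofReal_integral_eq_lintegral_ofReal (hg₁i r hr)
      (ae_of_all _ fun v => mul_nonneg (hw0 v) (Real.exp_pos _).le)
  -- the whole kernel
  have hF : ∀ x y : S d, x ≠ y → K s x y * (1 - h (dist x y)) =
      ∫ v in Ioi 0, w v * Real.exp (-v * dist x y) := fun x y hxy =>
    (hrep _ (dist_pos.2 hxy)).2
  have hF0 : ∀ x y : S d, 0 ≤ K s x y * (1 - h (dist x y)) := by
    intro x y
    by_cases hxy : x = y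
    · subst hxy; rw [K_self hs.ne', zero_mul]
    · rw [hF x y hxy]
      exact setIntegral_nonneg measurableSet_Ioi fun v _ => mul_nonneg (hw0 v) (Real.exp_pos _).le
  have hFge : ∀ x y : S d, x ≠ y → g₁ (dist x y) ≤ K s x y * (1 - h (dist x y)) := by
    intro x y hxy
    rw [hF x y hxy]
    exact setIntegral_mono_set (hrep _ (dist_pos.2 hxy)).1
      (ae_of_all _ fun v => mul_nonneg (hw0 v) (Real.exp_pos _).le)
      (LE.le.eventuallyLE Ioc_subset_Ioi_self)
  have hFG : ∀ x y : S d, ENNReal.ofReal (K s x y * (1 - h (dist x y))) ≤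
      mix w (Ioc 0 U) (dist x y) + mix w (Ioi U) (dist x y) := by
    intro x y
    by_cases hxy : x = y
    · subst hxy; rw [K_self hs.ne', zero_mul, ENNReal.ofReal_zero]; exact zero_le
    · rw [hF x y hxy, ofReal_integral_eq_lintegral_ofReal (hrep _ (dist_pos.2 hxy)).1
        (ae_of_all _ fun v => mul_nonneg (hw0 v) (Real.exp_pos _).le)]
      unfold mix
      rw [← Ioc_union_Ioi_eq_Ioi hU0.le,
        lintegral_union measurableSet_Ioi (Ioc_disjoint_Ioi le_rfl)]
  -- lower bound of the discrete sum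
  have hsum : ∑ x ∈ X, ∑ y ∈ X, g₁ (dist x y) - X.card * I ≤
      ∑ x ∈ X, ∑ y ∈ X, K s x y * (1 - h (dist x y)) := by
    have : ∑ x ∈ X, ∑ y ∈ X, g₁ (dist x y) - X.card * I =
        ∑ x ∈ X, (∑ y ∈ X, g₁ (dist x y) - I) := by
      rw [Finset.sum_sub_distrib, Finset.sum_const, nsmul_eq_mul]
    rw [this]
    refine Finset.sum_le_sum fun x hx => ?_
    rw [← Finset.sum_erase_add _ _ hx, ← Finset.sum_erase_add X
      (fun y => K s x y * (1 - h (dist x y))) hx, dist_self, hg₁z, K_self hs.ne']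
    have : ∑ y ∈ X.erase x, g₁ (dist x y) ≤ ∑ y ∈ X.erase x, K s x y * (1 - h (dist x y)) :=
      Finset.sum_le_sum fun y hy => hFge x y (Finset.ne_of_mem_erase hy).symm
    linarith
  -- positive definiteness of the bounded part
  set A₁ : ℝ≥0∞ := ∫⁻ x, ∫⁻ y : S d, mix w (Ioc 0 U) (dist x y) ∂(sig d) ∂(sig d) with hA₁
  set A₂ : ℝ≥0∞ := ∫⁻ x, ∫⁻ y : S d, mix w (Ioi U) (dist x y) ∂(sig d) ∂(sig d) with hA₂
  have hA₁eq := lint_mix (d := d) hwm hw0 (A := Ioc 0 U) measurableSet_Ioc Ioc_subset_Ioi_self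
  have hA₂eq := lint_mix (d := d) hwm hw0 (A := Ioi U) measurableSet_Ioi
    (Ioi_subset_Ioi hU0.le)
  have hpdsum : ENNReal.ofReal ((X.card : ℝ) ^ 2) * A₁ ≤
      ENNReal.ofReal (∑ x ∈ X, ∑ y ∈ X, g₁ (dist x y)) := by
    rw [hA₁, hA₁eq]
    calc ENNReal.ofReal ((X.card : ℝ) ^ 2) * ∫⁻ v in Ioc 0 U, ENNReal.ofReal (w v) *
          ENNReal.ofReal (avg2 (fun x y : S d => Real.exp (-v * dist x y)))
        = ∫⁻ v in Ioc 0 U, ENNReal.ofReal ((X.card : ℝ) ^ 2) * (ENNReal.ofReal (w v) *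
          ENNReal.ofReal (avg2 (fun x y : S d => Real.exp (-v * dist x y)))) :=
          (lintegral_const_mul' _ _ ENNReal.ofReal_ne_top).symm
      _ ≤ ∫⁻ v in Ioc 0 U, ENNReal.ofReal
            (∑ x ∈ X, ∑ y ∈ X, w v * Real.exp (-v * dist x y)) := by
          refine setLIntegral_mono' measurableSet_Ioc fun v hv => ?_
          rw [← ENNReal.ofReal_mul (hw0 v), ← ENNReal.ofReal_mul (by positivity)]
          refine ENNReal.ofReal_le_ofReal ?_
          have h1 := hpd v hv.1.le X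
          simp_rw [← Finset.mul_sum]
          calc (X.card : ℝ) ^ 2 * (w v * avg2 (fun x y : S d => Real.exp (-v * dist x y)))
              = w v * ((X.card : ℝ) ^ 2 * avg2 (fun x y : S d => Real.exp (-v * dist x y))) := by
                ring
            _ ≤ _ := mul_le_mul_of_nonneg_left h1 (hw0 v)
      _ = ENNReal.ofReal (∫ v in Ioc 0 U, ∑ x ∈ X, ∑ y ∈ X, w v * Real.exp (-v * dist x y)) := by
          rw [ofReal_integral_eq_lintegral_ofReal]
          · exact integrable_finsetSum _ fun x _ => integrable_finsetSum _ fun y _ =>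
              hg₁i _ dist_nonneg
          · exact ae_of_all _ fun v => Finset.sum_nonneg fun x _ => Finset.sum_nonneg fun y _ =>
              mul_nonneg (hw0 v) (Real.exp_pos _).le
      _ = _ := by
          congr 1
          rw [integral_finsetSum _ fun x _ => integrable_finsetSum _ fun y _ =>
              hg₁i _ dist_nonneg]
          refine Finset.sum_congr rfl fun x _ => ?_
          rw [integral_finsetSum _ fun y _ => hg₁i _ dist_nonneg]
  have hA₁fin : A₁ ≠ ∞ := by
    have : A₁ ≤ ENNReal.ofReal I := by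
      calc A₁ ≤ ∫⁻ _x : S d, ∫⁻ _y : S d, ENNReal.ofReal I ∂(sig d) ∂(sig d) := by
            refine lintegral_mono fun x => lintegral_mono fun y => ?_
            rw [← hg₁mix _ dist_nonneg]
            refine ENNReal.ofReal_le_ofReal ?_
            refine setIntegral_mono_on (hg₁i _ dist_nonneg) hwint measurableSet_Ioc fun v hv => ?_
            refine mul_le_of_le_one_right (hw0 v) (Real.exp_le_one_iff.2 ?_)
            have hv0 : 0 < v := hv.1
            have : 0 ≤ dist x y := dist_nonneg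
            nlinarith
        _ = _ := by simp
    exact (this.trans_lt ENNReal.ofReal_lt_top).ne
  have hA₂le : A₂ ≤ ENNReal.ofReal (C * Ce / (d + θ - s) * (a ^ θ * U ^ (s - θ - d))) := by
    rw [hA₂, hA₂eq]
    calc ∫⁻ v in Ioi U, ENNReal.ofReal (w v) *
          ENNReal.ofReal (avg2 (fun x y : S d => Real.exp (-v * dist x y)))
        ≤ ∫⁻ v in Ioi U, ENNReal.ofReal (C * Ce * a ^ θ * v ^ (s - 1 - θ - d)) := by
          refine setLIntegral_mono' measurableSet_Ioi fun v hv => ?_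
          have hv1 : U < v := hv
          have hv0 : 0 < v := hU0.trans hv1
          rw [← ENNReal.ofReal_mul (hw0 v)]
          refine ENNReal.ofReal_le_ofReal ?_
          have h1 := hU2 v (by linarith)
          have h2 := exp_avg_le' hd hCb hb v hv0
          calc w v * avg2 (fun x y : S d => Real.exp (-v * dist x y))
              ≤ (C * a ^ θ * v ^ (s - 1 - θ)) * (Ce * v ^ (-(d:ℝ))) :=
                mul_le_mul h1 h2 (avg2_nonneg _ fun _ _ => (Real.exp_pos _).le) (by positivity)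
            _ = C * Ce * a ^ θ * (v ^ (s - 1 - θ) * v ^ (-(d:ℝ))) := by ring
            _ = _ := by rw [← Real.rpow_add hv0]; ring_nf
      _ = ENNReal.ofReal (∫ v in Ioi U, C * Ce * a ^ θ * v ^ (s - 1 - θ - d)) := by
          rw [ofReal_integral_eq_lintegral_ofReal]
          · exact (integrableOn_Ioi_rpow_of_lt (by linarith) hU0).const_mul _
          · refine (ae_restrict_iff' measurableSet_Ioi).2 (ae_of_all _ fun v hv => ?_)
            have hv0 : 0 < v := hU0.trans hv
            simp only [Pi.zero_apply]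
            positivity
      _ = _ := by
          congr 1
          rw [integral_const_mul, integral_Ioi_rpow_of_lt (by linarith) hU0]
          have e3 : s - 1 - θ - d + 1 = s - θ - d := by ring
          have e4 : s - θ - (d:ℝ) ≠ 0 := by linarith
          rw [e3]
          field_simp
          ring
  have hAvg : ENNReal.ofReal (avg2 (fun x y : S d => K s x y * (1 - h (dist x y)))) ≤
      A₁ + A₂ := by
    refine (ofReal_avg2_le _ hF0 (fun x y => mix w (Ioc 0 U) (dist x y) +
      mix w (Ioi U) (dist x y)) hFG).trans (le_of_eq ?_)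
    have hmm : ∀ A : Set ℝ, Measurable (fun p : S d × S d => mix w A (dist p.1 p.2)) := by
      intro A
      have hm : Measurable (fun p : (S d × S d) × ℝ =>
          ENNReal.ofReal (w p.2 * Real.exp (-p.2 * dist p.1.1 p.1.2))) := by
        have h1 : Measurable (fun p : (S d × S d) × ℝ => dist p.1.1 p.1.2) :=
          measurable_dist.comp measurable_fst
        exact ((hwm.comp measurable_snd).mul
          (Real.measurable_exp.comp ((measurable_snd.neg).mul h1))).ennreal_ofReal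
      exact hm.lintegral_prod_right'
    rw [hA₁, hA₂, ← lintegral_add_left (hmm _).lintegral_prod_right']
    refine lintegral_congr fun x => ?_
    exact lintegral_add_left ((hmm (Ioc 0 U)).comp (measurable_prodMk_left (x := x))) _
  -- conclusion
  have hA₁r : (X.card : ℝ) ^ 2 * A₁.toReal ≤ ∑ x ∈ X, ∑ y ∈ X, g₁ (dist x y) := by
    have h1 : ENNReal.ofReal ((X.card : ℝ) ^ 2 * A₁.toReal) ≤
        ENNReal.ofReal (∑ x ∈ X, ∑ y ∈ X, g₁ (dist x y)) := by
      rw [ENNReal.ofReal_mul (by positivity), ENNReal.ofReal_toReal hA₁fin]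
      exact hpdsum
    exact (ENNReal.ofReal_le_ofReal_iff (Finset.sum_nonneg fun x _ =>
      Finset.sum_nonneg fun y _ => hg₁0 _)).1 h1
  have hAvgr : avg2 (fun x y : S d => K s x y * (1 - h (dist x y))) ≤
      A₁.toReal + C * Ce / (d + θ - s) * (a ^ θ * U ^ (s - θ - d)) := by
    rw [← ENNReal.ofReal_le_ofReal_iff (by positivity),
      ENNReal.ofReal_add ENNReal.toReal_nonneg (by positivity), ENNReal.ofReal_toReal hA₁fin]
    exact hAvg.trans (by gcongr)
  set N : ℝ := (X.card : ℝ) with hN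
  have hN0 : 0 ≤ N := Nat.cast_nonneg _
  have h5 : N ^ 2 * avg2 (fun x y : S d => K s x y * (1 - h (dist x y))) ≤
      N ^ 2 * (A₁.toReal + C * Ce / (d + θ - s) * (a ^ θ * U ^ (s - θ - d))) :=
    mul_le_mul_of_nonneg_left hAvgr (by positivity)
  have h6 : N * I ≤ N * (C * a ^ θ * U ^ (s - θ)) := mul_le_mul_of_nonneg_left hIle hN0
  have h7 : 0 ≤ C * Ce / (d + θ - s) * (N * a ^ θ * U ^ (s - θ)) := by positivity
  have h8 : 0 ≤ C * (N ^ 2 * a ^ θ * U ^ (s - θ - d)) := by positivity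
  nlinarith [h5, h6, h7, h8, hA₁r, hsum]

end Helper23.Riesz
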